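import Mathlib
import Pool.Agent.R852.CP.Poin

/-!
# Poles of Igusa's Poincaré series for compositions with generic coefficients, every prime

Let `Φ(x, z) = ∑_j a_j x ^ (m_j) z ^ (m_j') + h₀(x, z)` and `P_i(x) = ∑_l b_l x ^ (w_l) + h_i(x)`, where
the sum is over the `l` with `ι l = i`, be polynomials over `ℤ` with arbitrary exponents and fixed
parts, and let `f(x) = Φ(x, P_1(x), …, P_κ(x))`, with generic integral `a_j`, `b_l`: `g(a, b) ≠ 0` for a
certain polynomial `g ≠ 0`. Let `𝒫` be the Newton polyhedron of `G = Φ(x, z) + ∑ y_i (z_i - P_i(x))`. Then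
for EVERY prime `p` (no prime is excluded, the reduction modulo `p` may be arbitrarily bad) Igusa's
Poincaré series of `f` is a rational function, for every pole `T₀` the number
`t₀ = -log |T₀| / log p` is `-σ` with a rational number `σ`, and

* `-σ` is a root of the Bernstein-Sato polynomial of `f`, of multiplicity at least the ORDER of the
  pole, if the facets of `𝒫` with the candidate pole `-(σ + κ)` are simplices, or `B1`-facets with
  compatible directions;
* `-σ` is a root if one of its facets contains a simplex which is not `B1`, and if `σ = 1`.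

Examples are all products of powers `x ^ u ∏_i P_i ^ (e_i)` of generic polynomials `P_i` (`Φ` a
monomial), sums of such products, and so on. These `f` are in general not reduced and degenerate
with respect to their Newton polyhedra, in all coordinates, and their singularities are not
isolated.

Method. There is an automorphism `ψ` of the polynomial ring over `ℤ` with
`ψ (f + ∑ y_i z_i) = Φ(x, z) + ∑ y_i (z_i - P_i(x)) = G`; the coefficients of the `y_i z_i` are normalised
to `1` by the torus. If `b_f(s) = (s + 1) c(s)`, then `(s + 1) c(s + κ)` satisfies a functional equation of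
`f + ∑ y_i z_i`; for every prime the Poincare series of `f + ∑ y_i z_i` is the one of `f`, shifted, up to
simple factors; and the theorem for generic coefficients, with the orders, and for every prime
(`GenericOrdersEveryPrime`) is applied to `G`.
-/

set_option autoImplicit false

namespace Pool.Agent.Results.MP_5d9b3c_ag.GenericCompositions

open Pool.Agent.W206.CU Pool.Agent.TH216.HD
open Pool.Agent.Y229.PA (expG fixH compH)

/-- **Denef's question on the poles of Igusa's Poincaré series for the compositions
`f(x) = Φ(x, P_1(x), …, P_κ(x))` over `ℤ` with generic coefficients, for EVERY prime, with orders.**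

`compH m w ι h₀ h a b` is the polynomial `f(x) = Φ(x, P_1(x), …, P_κ(x))`, where
`Φ(x, z) = ∑_j a_j X ^ (m j) + h₀(x, z)`, `X = (x, z)`, and `P_i(x) = ∑_{ι l = i} b_l x ^ (w l) + h_i(x)`.
The exponents `m j ≠ 0` are distinct, and the `w l` with the same `ι l` are distinct. For each `i`
the polynomial `P_i` has no fixed part, `h_i = 0`, or `z_i` does not occur in `h₀`.

`v = expG m w ι` is the family of the exponents of the generic monomials of
`G = Φ(x, z) + ∑_i y_i (z_i - P_i(x))`, in the variables `x`, `y`, `z`: the `m j`, the exponents of the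
`y_i x ^ (w l)`, `ι l = i`, and the ones of the `y_i z_i`; `fixH h₀ h = h₀(x, z) - ∑_i y_i h_i(x)` is the
fixed part, whose exponents are required to be in the Newton polyhedron `conv {v j} + ℝ_{≥ 0} ^ N`
(`InPoly`), and different from the `v j`.

For `e ∈ ℕ ^ N`, `N = n + 2 κ`, let `N_e := ordA v e = min_j ⟨e, v j⟩` and, if `N_e > 0`,
`lev v e = |e| / N_e`. The facets of the Newton polyhedron are the faces of the rays. `NonB1` and
`SimpleAt` are explained in `GenericOrdersEveryPrime`:

* `NonB1 v False e`: there is a set `J` of `#{i | e i ≠ 0}` elements with `⟨e, v j⟩ = N_e` for `j ∈ J`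
  such that the vectors `(v j i)_{e i ≠ 0}`, `j ∈ J`, are linearly independent and such that no
  variable `X_i` with `e i ≠ 0` occurs in exactly one of the monomials `X ^ (v j)`, `j ∈ J`, and
  there with exponent `1`.
* `SimpleAt v h τ` says that for every `v j1` there is a variable `X_i` such that the facets through
  `v j1` with `|a| / N_a = τ` are simplices (`h` adding no exponent outside of the convex hull of the
  `v j`) or B1 in the direction `i`; or that the exponents of `h` are in the convex hull of the `v j`
  and every face, spanned by linearly dependent `v j`, which is contained only in facets with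
  `|a| / N_a = τ`, has these B1 in a common direction (in all coordinate subspaces).

`poincare p f = ∑_m a_m (p ^ (-n) T) ^ m`, `a_m` the number of zeros of `f` modulo `p ^ m`; `Rational p f`
says that it is a rational function. `IsPoleOfOrder P T₀ μ`, `μ > 0`, says that
`P = A / ((T - T₀) ^ μ B)` with polynomials `A`, `B` which do not vanish at `T₀`. `IsBFunction f b` says that
`b(s) f ^ s = P(s) f ^ (s + 1)` for a differential operator `P(s)` in the Weyl algebra, polynomial in
`s`; the Bernstein-Sato polynomial `b_f` is one of these polynomials `b`. -/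
theorem result {n κ r s : ℕ} (hr : 0 < r) (hκ : 0 < κ) (m : Fin r → Fin n ⊕ Fin κ → ℕ)
    (hm : Function.Injective m) (hm0 : ∀ j, m j ≠ 0) (w : Fin s → Fin n → ℕ) (ι : Fin s → Fin κ)
    (hw : Function.Injective fun l => (ι l, w l)) (h₀ : MvPolynomial (Fin n ⊕ Fin κ) ℤ)
    (h : Fin κ → MvPolynomial (Fin n) ℤ)
    (hS : ∀ i, h i = 0 ∨ ∀ u ∈ h₀.support, u (Sum.inr i) = 0)
    (hh : ∀ u ∈ (fixH h₀ h).support, InPoly (expG m w ι) u ∧ ∀ J, ¬ ∀ I, u I = expG m w ι J I) :
    ∃ g : MvPolynomial (Fin r ⊕ Fin s) ℚ, g ≠ 0 ∧ ∀ (a : Fin r → ℤ) (b : Fin s → ℤ),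
      MvPolynomial.eval (fun J => ((Sum.elim a b J : ℤ) : ℚ)) g ≠ 0 →
      (MvPolynomial.map (Int.castRingHom ℂ) (compH m w ι h₀ h a b)).totalDegree ≠ 0 →
      ∀ (p : ℕ) [Fact p.Prime], Pool.Agent.R852.Rational p (compH m w ι h₀ h a b) ∧
        ∀ (T₀ : ℂ) (μ : ℕ), 0 < μ → IsPoleOfOrder (poincare p (compH m w ι h₀ h a b)) T₀ μ →
        ∀ β : Polynomial ℂ, β ≠ 0 →
          Pool.Agent.H628R4.TP.IsBFunction
            (MvPolynomial.map (Int.castRingHom ℂ) (compH m w ι h₀ h a b)) β →
          ∃ σ : ℚ, -Real.log ‖T₀‖ / Real.log p = -(σ : ℝ) ∧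
            ((σ = 1 ∨ (∃ e : Fin (n + (κ + κ)) → ℕ, 0 < ordA (expG m w ι) e ∧
                NonB1 (expG m w ι) False e ∧ lev (expG m w ι) e = σ + κ) ∨
              Pool.Agent.R852.SimpleAt (expG m w ι) (fixH h₀ h) (σ + κ)) →
                β.eval ((-Real.log ‖T₀‖ / Real.log p : ℝ) : ℂ) = 0) ∧
            (Pool.Agent.R852.SimpleAt (expG m w ι) (fixH h₀ h) (σ + κ) →
              μ ≤ β.rootMultiplicity ((-Real.log ‖T₀‖ / Real.log p : ℝ) : ℂ)) :=
  Pool.Agent.R852.CP.cmpP hr hκ m hm hm0 w ι hw h₀ h hS hh

end Pool.Agent.Results.MP_5d9b3c_ag.GenericCompositions
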