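import Mathlib
import Pool.Agent.R852.FinP

/-!
# Poles of Igusa's Poincaré series for generic integral coefficients, every prime

Let `f = ∑_j c_j x ^ (v j) + h`, where `h ∈ ℤ[x_1, …, x_n]` is an ARBITRARY polynomial whose exponents
lie in the Newton polyhedron of the `v j ≠ 0` (any number of variables), and only the integral
coefficients `c_j` (for instance at the vertices of the Newton polyhedron of `f`) are generic:
`g(c) ≠ 0` for a certain nonzero polynomial `g`. Then for EVERY prime `p` (no prime is excluded, the
reduction modulo `p` may be arbitrarily bad) Igusa's Poincaré series of `f` is a rational function, for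
every pole `T₀` the number `t₀ = -log |T₀| / log p` is `-σ` with a rational number `σ`, and

* `-σ` is a root of the Bernstein-Sato polynomial of `f`, of multiplicity at least the ORDER of the
  pole, if the facets of the Newton polyhedron with the candidate pole `-σ` are simplices, or
  `B1`-facets with compatible directions (at every vertex, or, if the exponents of `h` are in the
  convex hull of the `v j`, at every face whose vertices are linearly dependent);
* `-σ` is a root if one of its facets contains a simplex which is not `B1`, and if `σ = 1`.

So Denef's question has a positive answer, with the orders of the poles, for all the poles and all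
the primes, if the facets are simplices with vertices among the `v j`. The singularities need not be isolated, and `f` need not be
reduced.

Earlier (`GenericCoefficientsB1`): almost all primes, no orders, and `B1`-facets in one common
direction; `AffinelyIndependentEveryPrime`, `SparseEveryPrime`: affinely independent exponents.

Method. The proof is the one of `Pool/Agent/TH216/EP`: the functional equation of the
Bernstein-Sato polynomial gives, for algebraically independent `c_j`, an identity in a polynomial
ring with one variable for every `v j`; it is turned into a multiplicative identity for the series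
`∑_u p ^ (-|u|) F (⟨u, m_1⟩ - t, …, ⟨u, m_k⟩ - t)` which give the numbers of solutions of the
congruences modulo `p ^ t`, for every prime (compactness and Hensel's lemma replace good reduction);
the ideal of the relations and the nilpotence of its thickening bound the order of the pole of
the Poincare series by the multiplicity of the root.
-/

set_option autoImplicit false

namespace Pool.Agent.Results.MP_5d9b3c_ag.GenericOrdersEveryPrime

open Pool.Agent.W206.CU Pool.Agent.TH216.HD

/-- **Denef's question on the poles of Igusa's Poincaré series for the polynomials
`f = ∑_j c_j x ^ (v j) + h` over `ℤ` with generic coefficients `c_j`, for EVERY prime, with orders.**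

`spa v c` is the polynomial `∑_j c_j x ^ (v j)`. `InPoly v w` says that the exponent `w` is in the Newton
polyhedron `conv {v j} + ℝ_{≥ 0} ^ n`.

For `a ∈ ℕ ^ n` let `N_a := ordA v a = min_j ⟨a, v j⟩` and, if `N_a > 0`, `lev v a = |a| / N_a`. The
facets of the Newton polyhedron are the faces of the rays `a` (`IsRay v a`).

* `NonB1 v False a`: there is a set `J` of `#{i | a i ≠ 0}` elements with `⟨a, v j⟩ = N_a` for `j ∈ J`
  such that the vectors `(v j i)_{a i ≠ 0}`, `j ∈ J`, are linearly independent and such that no
  variable `x_i` with `a i ≠ 0` occurs in exactly one of the monomials `x ^ (v j)`, `j ∈ J`, and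
  there with exponent `1`.
* `SimpleAt v h σ` says that one of the following holds.
  - `LocS v h σ`: for every `v j1` there is a variable `x_i` such that each of the rays `a` with
    `N_a > 0`, `|a| / N_a = σ` and `⟨a, v j1⟩ = N_a` (the facets through `v j1`) satisfies one of:
    its facet is a simplex (the vectors `(v j i)_{a i ≠ 0}`, for the `j` with `⟨a, v j⟩ = N_a`, are
    linearly independent, and the exponents `w` of `h` with `⟨a, w⟩ = N_a` are in the convex hull of
    the `v j`); or it is B1 in the direction `i`: `a i ≠ 0`, and among the monomials of the face of
    `a` (the `x ^ (v j)` and the monomials of `h` of minimal `a`-weight `N_a`) exactly one is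
    divisible by `x_i`; this one is some `x ^ (v j0)` with `v j0 i = 1` (it may also occur in `h`).
  - The exponents of `h` are in the convex hull of the `v j`, and `LocF v σ`: for all sets `A` of
    variables and all sets `τ` of indices, if the facets of the rays `a` with `a i = 0` for all
    `i ∉ A` which contain the `v j`, `j ∈ τ`, all have `|a| / N_a = σ`, if every variable `x_i`,
    `i ∈ A`, occurs in some `x ^ (v j)`, `j ∈ τ`, and if the vectors `(v j i)_{i ∈ A}`, `j ∈ τ`, are
    linearly dependent, then these facets are B1 in a common direction.

`poincare p f = ∑_m a_m (p ^ (-n) T) ^ m`, `a_m` the number of zeros of `f` modulo `p ^ m`; `Rational p f`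
says that it is a rational function. `IsPoleOfOrder P T₀ m`, `m > 0`, says that
`P = A / ((T - T₀) ^ m B)` with polynomials `A`, `B` which do not vanish at `T₀`. `IsBFunction f b` says that
`b(s) f ^ s = P(s) f ^ (s + 1)` for a differential operator `P(s)` in the Weyl algebra, polynomial in
`s`; the Bernstein-Sato polynomial `b_f` is one of these polynomials `b`. -/
theorem result {n r : ℕ} (hr : 0 < r) (v : Fin r → Fin n → ℕ) (hv : Function.Injective v)
    (hv0 : ∀ j, v j ≠ 0) (h : MvPolynomial (Fin n) ℤ) (hh : ∀ w ∈ h.support, InPoly v w) :
    ∃ g : MvPolynomial (Fin r) ℚ, g ≠ 0 ∧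
      ∀ c : Fin r → ℤ, MvPolynomial.eval (fun j => (c j : ℚ)) g ≠ 0 →
      ∀ (p : ℕ) [Fact p.Prime], Pool.Agent.R852.Rational p (Pool.Agent.W425.ND.spa v c + h) ∧
        ∀ (T₀ : ℂ) (m : ℕ), 0 < m →
        IsPoleOfOrder (poincare p (Pool.Agent.W425.ND.spa v c + h)) T₀ m →
        ∀ b : Polynomial ℂ, b ≠ 0 →
          Pool.Agent.H628R4.TP.IsBFunction
            (MvPolynomial.map (Int.castRingHom ℂ) (Pool.Agent.W425.ND.spa v c + h)) b →
          ∃ σ : ℚ, -Real.log ‖T₀‖ / Real.log p = -(σ : ℝ) ∧
            ((σ = 1 ∨ (∃ a : Fin n → ℕ, 0 < ordA v a ∧ NonB1 v False a ∧ lev v a = σ) ∨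
              Pool.Agent.R852.SimpleAt v h σ) →
                b.eval ((-Real.log ‖T₀‖ / Real.log p : ℝ) : ℂ) = 0) ∧
            (Pool.Agent.R852.SimpleAt v h σ →
              m ≤ b.rootMultiplicity ((-Real.log ‖T₀‖ / Real.log p : ℝ) : ℂ)) :=
  Pool.Agent.R852.mainP hr v hv hv0 h hh

end Pool.Agent.Results.MP_5d9b3c_ag.GenericOrdersEveryPrime
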