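import Mathlib
import Pool.Agent.R852.PP.Poin
import Pool.Agent.R852.PP.Ex

set_option autoImplicit false

/-! # Poles of Igusa's Poincaré series for products of powers of members of linear systems

Two classes of ideals, given by finitely many generators with rational coefficients: `PTS strict
false` for ideals and `PTS strict true` for hypersurfaces (principal ideals).
* `PTS strict false` contains the class `Good strict` (of `Pool/Agent/Y230/PS/Defs.lean`; it contains
  all nonzero ideals of `ℚ[x, y]`), **all monomial ideals** in any number of variables, the
  hypersurfaces of `PTS strict true` and **their powers** `g ^ k`, and it is closed under sums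
  `I + J` and products `I J` in disjoint sets of variables.
* `PTS strict true` contains all plane curves, the polynomials `∑ y_j f_j(x)`, the **products of
  powers** `F = h(x) ∏_t (∑_j y_{t, j} f_{t, j}(x)) ^ a_t`, `a_t ≥ 1`, if the ideal
  `J = h ∏_t (f_{t, j})_j ^ a_t` is in `PTS strict false`, and the Thom-Sebastiani sums
  `∑ y_j f_j(x) + g(z)`, for `(f_j)` in `PTS strict false` and `g` in `PTS strict true`, and it is
  closed under products in disjoint sets of variables and under dropping variables which do not
  occur.
For example, `h(x_1, x_2) ∏_t (∑_j y_{t, j} f_{t, j}(x_1, x_2)) ^ a_t` is in the class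
`PTS true true`, for arbitrary polynomials `h ≠ 0`, `f_{t, j}` and exponents `a_t ≥ 1`
(`Pool/Agent/R852/PP/Ex.lean`, `plane_mem`), and so are its Thom-Sebastiani sums with polynomials `∑ y_j x ^ (v_j)`.

For every polynomial `F` with integer coefficients such that the ideal `(F)` is in the class, in any
number of variables, and for EVERY prime `p` (no prime is excluded, the reduction modulo `p` may be
arbitrarily bad), the number `t_0 = -log |T_0| / log p` is a root of `b_F` for every pole `T_0` of
Igusa's Poincaré series of `F` (`strict = false`), and of multiplicity at least the order of the pole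
(`strict = true`). This answers Denef's question for these `F`.

Method. For `Good` and the Thom-Sebastiani sums see `Pool/Agent/Y230`. New are, in
`Pool/Agent/R852/PP`:
* Products of powers `F = h ∏_t F_t ^ a_t`. For fixed `x` the integral over the `y` is
  `|J(x)| ^ s ∏_t φ(a_t s)`, `φ(s) = (p - 1) / (p - p ^ (-s))`; so `Z_F(s) = Z_J(s) ∏_t φ(a_t s)`.
* The functional equations of `F`: expanding in powers of the `y` gives operators for `J`, and the
  factor `Φ(s) = ∏_t ∏_(i ≤ a_t) (a_t s + i)` of the strict transforms appears by the comparison of the
  falling factorials; it can be divided out, and `b_F = Φ b'` with a functional equation of `J` with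
  `b'` (`functionalEq_strong`). So the multiplicities of the roots of `J` and of the roots `-i / a_t`
  add up, as the orders of the poles do. Also the refined statement at `-1`, which is needed for the
  Thom-Sebastiani sums, follows.
* Powers: `b_(g ^ k)(s / k)` satisfies a functional equation of `g` (`isB_of_pow`).
* Monomial ideals: the orders are bounded by the multiplicities of the roots of the ideal
  (`FR_mono`), with the Nullstellensatz argument of `Pool/Agent/W427/SMC`; there are no poles with
  `Re s ≥ 0` as the integral is a convergent power series in `p ^ (-s)` (`disc`). -/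

namespace Pool.Agent.Results.MP_5d9b3c_ag.PowersOfForms

open MvPolynomial Pool.Agent.W427.SMC Pool.Agent.H628R4.TP Pool.Agent.R852.PP

/-- **Denef's question for the hypersurfaces of the class `PTS` and every prime `p`.** Let `b ≠ 0`
satisfy a functional equation `b(s) F ^ s = P(s) F ^ (s + 1)`, for instance `b = b_F`. If `(F)` is in
the class `PTS false false`, then the Poincaré series of `F` is the expansion at `0` of a rational
function `Φ`, and for every pole `T₀` of `Φ`, that is, for every root `T₀` of the reduced
denominator of `Φ`, the number `t₀ = -log |T₀| / log p` is a root of `b`. If `(F)` is in the class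
`PTS true false`, then the order of the pole `T₀` is at most the multiplicity of the root `t₀`. -/
theorem result {V : Type} [Fintype V] (F : MvPolynomial V ℤ) (p : ℕ) [Fact p.Prime]
    (b : Polynomial ℂ) (hb0 : b ≠ 0) (hb : IsBFunction (map (Int.castRingHom ℂ) F) b) :
    (PTS false false ⟨V, Fin 1, fun _ => map (Int.castRingHom ℚ) F⟩ →
      ∃ Φ : RatFunc ℂ, ((Φ.denom : Polynomial ℂ) : PowerSeries ℂ) * poincare p F =
          ((Φ.num : Polynomial ℂ) : PowerSeries ℂ) ∧
        ∀ T₀ : ℂ, Φ.denom.eval T₀ = 0 → b.eval ((-Real.log ‖T₀‖ / Real.log p : ℝ) : ℂ) = 0) ∧
    (PTS true false ⟨V, Fin 1, fun _ => map (Int.castRingHom ℚ) F⟩ →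
      ∃ Φ : RatFunc ℂ, ((Φ.denom : Polynomial ℂ) : PowerSeries ℂ) * poincare p F =
          ((Φ.num : Polynomial ℂ) : PowerSeries ℂ) ∧
        ∀ T₀ : ℂ, Φ.denom.rootMultiplicity T₀ ≤
          b.rootMultiplicity ((-Real.log ‖T₀‖ / Real.log p : ℝ) : ℂ)) :=
  ⟨fun hF => poin_R F hF b hb, fun hF => poin_M F hF b hb0 hb⟩

end Pool.Agent.Results.MP_5d9b3c_ag.PowersOfForms
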