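import Mathlib
import Pool.Agent.R852.SP.Poin

set_option autoImplicit false

/-! # Poles of Igusa's Poincaré series for products of powers of forms over products of linear ideals

Let `L s = sub c s`, `s ∈ S`, be proper linear subspaces of the affine space, given as the zeros of
linear forms with rational (here integer) coefficients `c s j`. For `t ∈ T` let
`F_t = ∑_J y_{t,J} M_{t,J}(x)`, where the `M_{t,J}` are the products of these linear forms, `e t s`
of them from the family of index `s`, `s ∈ S` (`arrM`; they generate the ideal
`∏ s, I(L s) ^ e t s`), and the `y_{t,J}` are further variables, separate for each `t`. Let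
`f = ∏ t, F_t ^ a t` (`arrForm`).

The zeta function is computed for EVERY prime `p` (no prime is excluded; the reduction modulo `p` may
be arbitrarily bad). For fixed `x` the integral over the `y` is
`∏_s ‖c_s(x)‖ ^ (E_s s) ∏_t φ(a_t s)`, `φ(s) = (p - 1) / (p - p ^ (-s))`, `E_s = ∑ t, a t * e t s`.
The integral of `∏_s ‖c_s(x)‖ ^ (E_s s)` over a compact open subset of `ℚ_p ^ σ` is a rational
function of `p ^ (-s)`, and its poles `z = p ^ (-s₀)` satisfy `z ^ N_X = p ^ (codim X)` for an
irreducible flat `X` (`IsIrrFlat`) of the `L s` which occur in `f`, `N_X = ∑ E_s`, over the `s` with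
`X ⊆ L s` (`Nu`); the order is at most the number of such `X` in a nested set: of any two of them,
one contains the other or their sum is the whole space (`main`, in
`Pool/Agent/R852/SP/Ind.lean`). The proof is an induction on the set of the subspaces: at a point
at which not all the `L s` meet, the other factors are locally constant; a reducible intersection
gives a product of two integrals; and the scaling `x ↦ p x` on a complement of an irreducible
intersection gives the factor `1 / (1 - p ^ (-codim X) z ^ N_X)`. The irreducible flats over `ℚ_p`
and over `ℂ` are the same, as the ranks are.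

The Bernstein-Sato polynomial: `b_f = Φ b'`, where `Φ(s) = ∏_t ∏_(i ≤ a_t) (a_t s + i)` and `b'`
satisfies a functional equation of the ideal `∏_t ∏_s I(L s) ^ (a t * e t s)`
(`functionalEq_strong`); the exceptional divisor of `X` is a Rees divisor of this ideal if `X` is a
Rees flat (`IsReesFlat`), and then `-codim X / N_X` is a root of `b'` (`arr_roots`).

Examples. (2) The `L s` themselves are Rees flats; so all irreducible flats are Rees flats if they
belong to the `L s`. (3) Let `L s = H_s ⊗ ℂ ^ m`, `H_s` the hyperplane `α s = 0` of `ℂ ^ ι`. Then all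
irreducible flats of the `L s` are Rees flats if the irreducible flats of the `H_s` have codimension
at most `m`, in particular for all arrangements of hyperplanes of rank at most `m`, or if they are
constructible and `m ≥ 2` (this is so for supersolvable arrangements, for example for the diagonals
of the configurations of `n` points of `ℂ ^ m`, `m ≥ 2`).

The Poincaré series `P(T)` and the zeta function are related by `P(T) (1 - T) = 1 - T Z(T)`. -/

namespace Pool.Agent.Results.MP_5d9b3c_ag.SubspaceProducts

open MvPolynomial Pool.Agent.W427.SMC Pool.Agent.H628R4.TP Pool.Agent.R852.SP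
open Pool.Agent.TH187.SA (Occurs IsReesFlat zeros copies IsIrreducibleFlat IsConstructible)

/-- **Denef's question for `f = ∏ t, F_t ^ a t`, every prime.** (1) Let `b` satisfy a functional
equation `b(s) f ^ s = P(s) f ^ (s + 1)`, for instance `b = b_f`, and let `p` be a prime. Then the
Poincaré series of `f` is the expansion at `0` of a rational function `Φ`, and for every pole `T₀` of
`Φ`, that is, for every root `T₀` of the reduced denominator of `Φ`, the number
`t₀ = -log |T₀| / log p` is a root of `b`, if the irreducible flats `X` of the subspaces which occur in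
`f` with `-codim X / N_X = t₀` (`IsLevel`) are Rees flats. (2) Proper subspaces are Rees flats of
every finite family which contains them. (3) The irreducible flats of the `H_s ⊗ ℂ ^ m`, `H_s` a
hyperplane, are Rees flats if the irreducible flats of the `H_s` have codimension at most `m`, or are
constructible and `m ≥ 2`. -/
theorem result :
    (∀ {σ S T : Type} [Fintype σ] [DecidableEq σ] [Fintype S] [DecidableEq S] [Fintype T]
      [DecidableEq T] {κ : S → Type} [∀ s, Fintype (κ s)] [∀ s, DecidableEq (κ s)]
      (c : (s : S) → κ s → σ → ℤ) (_ : ∀ s, ∃ j, c s j ≠ 0) (e : T → S → ℕ) (a : T → ℕ)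
      (p : ℕ) [Fact p.Prime] (b : Polynomial ℂ)
      (_ : IsBFunction (map (Int.castRingHom ℂ) (arrForm c e a)) b),
      ∃ Φ : RatFunc ℂ, ((Φ.denom : Polynomial ℂ) : PowerSeries ℂ) * poincare p (arrForm c e a) =
          ((Φ.num : Polynomial ℂ) : PowerSeries ℂ) ∧
        ∀ T₀ : ℂ, Φ.denom.eval T₀ = 0 →
          (∀ X, IsIrrFlat (sub (toQ c)) (Occurs e a) X →
            IsLevel (toQ c) e a X ((-Real.log ‖T₀‖ / Real.log p : ℝ) : ℂ) →
            IsReesFlat (sub (toQ c)) (Occurs e a) X) →
          b.eval ((-Real.log ‖T₀‖ / Real.log p : ℝ) : ℂ) = 0) ∧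
    (∀ {σ S : Type} [Fintype σ] [DecidableEq σ] [Finite S] (H : S → Submodule ℂ (σ → ℂ))
      (A : S → Prop), (∀ s, A s → H s ≠ ⊤) → ∀ s, A s → IsReesFlat H A (H s)) ∧
    ∀ {ι S : Type} [Fintype ι] [DecidableEq ι] [Finite S] (m : ℕ) (α : S → ι → ℂ) (A : S → Prop),
      (∀ s, A s → α s ≠ 0) →
      (∀ X, IsIrreducibleFlat α A X → Fintype.card ι ≤ m + Module.finrank ℂ X ∨
        IsConstructible α A X ∧ 2 ≤ m) →
      ∀ X, IsIrrFlat (fun s => zeros (copies m (α s))) A X →
        IsReesFlat (fun s => zeros (copies m (α s))) A X :=
  ⟨fun c hc e a p _ b hb => poin_arr c hc e a b hb,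
    fun H A hH s hs => Pool.Agent.TH187.SA.isReesFlat_self H A hH s hs,
    fun m α A h0 hX X h => rees_copies m α A h0 hX X h⟩

end Pool.Agent.Results.MP_5d9b3c_ag.SubspaceProducts
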